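import Pool.Agent.N49.KR.Conc

/-!
# Submeasures on Boolean algebras: the disjoint family of Kalton and Roberts
-/

set_option autoImplicit false

namespace Pool.Agent.N49.KR

open Finset

universe u

variable {B : Type u} [BooleanAlgebra B]

/-- The points of the Stone space of `B` (ultrafilters). -/
structure Pt (B : Type u) [BooleanAlgebra B] where
  mem : B → Prop
  top : mem ⊤
  bot : ¬ mem ⊥
  inf : ∀ a b, mem (a ⊓ b) ↔ mem a ∧ mem b
  sup : ∀ a b, mem (a ⊔ b) ↔ mem a ∨ mem b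

theorem exists_pt {a : B} (ha : a ≠ ⊥) : ∃ x : Pt B, x.mem a := by
  have hd : Disjoint (Order.PFilter.principal a : Set B) (Order.Ideal.principal (⊥ : B) : Set B) := by
    rw [Set.disjoint_left]
    intro x hx hx'
    have h1 : a ≤ x := Order.PFilter.mem_principal.1 hx
    have h2 : x ≤ ⊥ := Order.Ideal.mem_principal.1 hx'
    exact ha (le_bot_iff.1 (h1.trans h2))
  obtain ⟨J, hJ, -, hd'⟩ := DistribLattice.prime_ideal_of_disjoint_filter_ideal hd
  have hle : ∀ {b c : B}, b ≤ c → c ∈ J → b ∈ J := fun h hc => J.lower h hc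
  refine ⟨⟨fun b => b ∉ J, ?_, ?_, ?_, ?_⟩, ?_⟩
  · intro h
    exact hJ.toIsProper.ne_univ (Set.eq_univ_of_forall fun b => hle le_top h)
  · rw [not_not]
    exact Order.Ideal.bot_mem J
  · intro b c
    constructor
    · intro h
      exact ⟨fun hb => h (hle inf_le_left hb), fun hc => h (hle inf_le_right hc)⟩
    · rintro ⟨hb, hc⟩ h
      rcases hJ.mem_or_mem h with h | h
      · exact hb h
      · exact hc h
  · intro b c
    constructor
    · intro h
      by_contra hcon
      push Not at hcon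
      exact h (Order.Ideal.sup_mem hcon.1 hcon.2)
    · rintro (h | h) h'
      · exact h (hle le_sup_left h')
      · exact h (hle le_sup_right h')
  · intro h
    exact Set.disjoint_left.1 hd' (Order.PFilter.mem_principal.2 le_rfl) h

theorem Pt.mono (x : Pt B) {a b : B} (h : a ≤ b) (ha : x.mem a) : x.mem b := by
  have h1 := (x.inf a b).1 (by rwa [inf_eq_left.2 h])
  exact h1.2

theorem Pt.compl (x : Pt B) (a : B) : x.mem aᶜ ↔ ¬ x.mem a := by
  constructor
  · intro h h'
    have h1 := (x.inf a aᶜ).2 ⟨h', h⟩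
    rw [inf_compl_eq_bot] at h1
    exact x.bot h1
  · intro h
    have h1 := (x.sup a aᶜ).1 (by rw [sup_compl_eq_top]; exact x.top)
    exact h1.resolve_left h

theorem le_iff_pt {a b : B} : a ≤ b ↔ ∀ x : Pt B, x.mem a → x.mem b := by
  refine ⟨fun h x => x.mono h, fun h => ?_⟩
  by_contra hcon
  have h1 : a ⊓ bᶜ ≠ ⊥ := by
    intro h2
    exact hcon (disjoint_compl_right_iff.1 (disjoint_iff.2 h2))
  obtain ⟨x, hx⟩ := exists_pt h1
  obtain ⟨h2, h3⟩ := (x.inf _ _).1 hx
  exact (x.compl b).1 h3 (h x h2)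

theorem disjoint_iff_pt {a b : B} : Disjoint a b ↔ ∀ x : Pt B, x.mem a → ¬ x.mem b := by
  rw [disjoint_iff_inf_le, le_iff_pt]
  refine forall_congr' fun x => ?_
  rw [x.inf]
  constructor
  · intro h ha hb
    exact x.bot (h ⟨ha, hb⟩)
  · rintro h ⟨ha, hb⟩
    exact absurd hb (h ha)

theorem Pt.mem_sup (x : Pt B) {ι : Type} (s : Finset ι) (f : ι → B) :
    x.mem (s.sup f) ↔ ∃ i ∈ s, x.mem (f i) := by
  classical
  induction s using Finset.induction_on with
  | empty => simp [x.bot]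
  | insert i s _ ih =>
    rw [Finset.sup_insert, x.sup, ih]
    simp

theorem Pt.mem_inf (x : Pt B) {ι : Type} (s : Finset ι) (f : ι → B) :
    x.mem (s.inf f) ↔ ∀ i ∈ s, x.mem (f i) := by
  classical
  induction s using Finset.induction_on with
  | empty => simp [x.top]
  | insert i s _ ih =>
    rw [Finset.inf_insert, x.inf, ih]
    simp

/-- Submeasures. -/
structure Sub (φ : B → ℝ) : Prop where
  bot : φ ⊥ = 0
  mono : ∀ {a b}, a ≤ b → φ a ≤ φ b
  sup : ∀ a b, φ (a ⊔ b) ≤ φ a + φ b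

namespace Sub

variable {φ : B → ℝ} (h : Sub φ)
include h

theorem nonneg (a : B) : 0 ≤ φ a := by
  rw [← h.bot]
  exact h.mono bot_le

theorem finset_sup {ι : Type} (s : Finset ι) (f : ι → B) : φ (s.sup f) ≤ ∑ i ∈ s, φ (f i) := by
  classical
  induction s using Finset.induction_on with
  | empty => simp [h.bot]
  | insert i s hi ih =>
    rw [Finset.sup_insert, Finset.sum_insert hi]
    exact (h.sup _ _).trans (add_le_add le_rfl ih)

end Sub

/-- Uniformly exhaustive submeasures. -/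
def UE (φ : B → ℝ) : Prop := ∀ ε : ℝ, 0 < ε → ∃ n : ℕ, ∀ s : Finset B,
  (∀ a ∈ s, ∀ b ∈ s, a ≠ b → Disjoint a b) → (∀ a ∈ s, ε ≤ φ a) → s.card ≤ n

open scoped Classical in
/-- **The disjoint family.** -/
theorem disj_family {φ : B → ℝ} (hφ : Sub φ) {p q : ℕ} {η : ℝ} (hp : 0 < p) (hq : 0 < q)
    {R : Fin p × Fin q → Fin 3 → Fin p} (hR : ∀ E : Finset (Fin p × Fin q),
      (E.card : ℝ) ≤ η * (p * q) → ∃ g : Fin p × Fin q → Fin 3,
        ∀ t ∈ E, ∀ t' ∈ E, R t (g t) = R t' (g t') → t = t')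
    (c : Fin p → B) (hc : ∀ x : Pt B,
      ((Finset.univ.filter fun t => x.mem (c t)).card : ℝ) ≤ η * p) {α : ℝ} (hα : 0 < α)
    (hcα : ∀ t, α ≤ φ (c t)) :
    ∃ s : Finset B, (∀ a ∈ s, ∀ b ∈ s, a ≠ b → Disjoint a b) ∧ (∀ a ∈ s, α / 3 ≤ φ a) ∧
      q ≤ s.card := by
  -- the matchings
  have hg : ∀ I : Finset (Fin p), ∃ g : Fin p × Fin q → Fin 3, (I.card : ℝ) ≤ η * p →
      ∀ t t' : Fin p × Fin q, t.1 ∈ I → t'.1 ∈ I → R t (g t) = R t' (g t') → t = t' := by
    intro I
    by_cases hI : (I.card : ℝ) ≤ η * p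
    · obtain ⟨g, hg⟩ := hR (I ×ˢ Finset.univ) (by
        rw [Finset.card_product, Finset.card_univ, Fintype.card_fin]
        push_cast
        have h1 : (0 : ℝ) ≤ q := Nat.cast_nonneg q
        calc (I.card : ℝ) * q ≤ η * p * q := mul_le_mul_of_nonneg_right hI h1
          _ = η * (p * q) := by ring)
      exact ⟨g, fun _ t t' ht ht' h => hg t (Finset.mem_product.2 ⟨ht, Finset.mem_univ _⟩) t'
        (Finset.mem_product.2 ⟨ht', Finset.mem_univ _⟩) h⟩
    · exact ⟨fun _ => 0, fun h => absurd h hI⟩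
  choose g hg using hg
  let S : Pt B → Finset (Fin p) := fun x => Finset.univ.filter fun t => x.mem (c t)
  let cell : Finset (Fin p) → B := fun I => I.inf c ⊓ Iᶜ.inf fun t => (c t)ᶜ
  have hcell : ∀ (x : Pt B) (I : Finset (Fin p)), x.mem (cell I) ↔ I = S x := by
    intro x I
    simp only [cell]
    rw [x.inf, x.mem_inf, x.mem_inf]
    simp only [x.compl, Finset.mem_compl, S]
    constructor
    · rintro ⟨h1, h2⟩
      ext t
      rw [Finset.mem_filter]
      refine ⟨fun ht => ⟨Finset.mem_univ t, h1 t ht⟩, fun ht => ?_⟩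
      by_contra hcon
      exact h2 t hcon ht.2
    · rintro rfl
      refine ⟨fun t ht => (Finset.mem_filter.1 ht).2, fun t ht h => ht ?_⟩
      exact Finset.mem_filter.2 ⟨Finset.mem_univ t, h⟩
  let D : Fin p × Fin q → Fin 3 → B := fun t i =>
    (Finset.univ.filter fun I : Finset (Fin p) => t.1 ∈ I ∧ g I t = i).sup cell
  have hD : ∀ (x : Pt B) t i, x.mem (D t i) ↔ t.1 ∈ S x ∧ g (S x) t = i := by
    intro x t i
    simp only [D]
    rw [x.mem_sup]
    constructor
    · rintro ⟨I, hI, hx⟩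
      rw [hcell] at hx
      rw [← hx]
      exact (Finset.mem_filter.1 hI).2
    · intro h
      exact ⟨S x, Finset.mem_filter.2 ⟨Finset.mem_univ _, h⟩, (hcell x _).2 rfl⟩
  have hex : ∀ t : Fin p × Fin q, ∃ i, α / 3 ≤ φ (D t i) := by
    intro t
    by_contra hcon
    push Not at hcon
    have h1 : c t.1 ≤ (Finset.univ : Finset (Fin 3)).sup (D t) := by
      rw [le_iff_pt]
      intro x hx
      rw [x.mem_sup]
      exact ⟨g (S x) t, Finset.mem_univ _, (hD x t _).2
        ⟨Finset.mem_filter.2 ⟨Finset.mem_univ _, hx⟩, rfl⟩⟩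
    have h2 := (hcα t.1).trans ((hφ.mono h1).trans (hφ.finset_sup _ _))
    rw [Fin.sum_univ_three] at h2
    linarith [hcon 0, hcon 1, hcon 2]
  choose i hi using hex
  -- the pigeonhole
  have hcard : (Finset.univ : Finset (Fin p)).card * (q - 1) <
      (Finset.univ : Finset (Fin p × Fin q)).card := by
    rw [Finset.card_univ, Finset.card_univ, Fintype.card_prod, Fintype.card_fin, Fintype.card_fin]
    exact Nat.mul_lt_mul_of_pos_left (by omega) hp
  obtain ⟨j, -, hj⟩ := Finset.exists_lt_card_fiber_of_mul_lt_card_of_maps_to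
    (f := fun t => R t (i t)) (fun t _ => Finset.mem_univ _) hcard
  set E := Finset.univ.filter fun t => R t (i t) = j with hE
  have hdis : ∀ t ∈ E, ∀ t' ∈ E, t ≠ t' → Disjoint (D t (i t)) (D t' (i t')) := by
    intro t ht t' ht' hne
    rw [disjoint_iff_pt]
    intro x hx hx'
    obtain ⟨h1, h2⟩ := (hD x t _).1 hx
    obtain ⟨h3, h4⟩ := (hD x t' _).1 hx'
    refine hne (hg (S x) (hc x) t t' h1 h3 ?_)
    rw [h2, h4, (Finset.mem_filter.1 ht).2, (Finset.mem_filter.1 ht').2]
  have hinj : Set.InjOn (fun t => D t (i t)) (E : Set (Fin p × Fin q)) := by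
    intro t ht t' ht' h
    by_contra hne
    have h1 := hdis t ht t' ht' hne
    have h' : D t (i t) = D t' (i t') := h
    rw [← h', disjoint_self] at h1
    have h2 := hi t
    rw [h1, hφ.bot] at h2
    linarith
  refine ⟨E.image fun t => D t (i t), ?_, ?_, ?_⟩
  · intro a ha b hb hab
    obtain ⟨t, ht, rfl⟩ := Finset.mem_image.1 ha
    obtain ⟨t', ht', rfl⟩ := Finset.mem_image.1 hb
    exact hdis t ht t' ht' fun h => hab (by rw [h])
  · intro a ha
    obtain ⟨t, -, rfl⟩ := Finset.mem_image.1 ha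
    exact hi t
  · rw [Finset.card_image_of_injOn hinj]
    omega

end Pool.Agent.N49.KR
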