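import Mathlib

/-!
# Concentrators: a counting lemma

For each `q` there is `η > 0` such that for all `p` there is a bipartite graph of degree three between
a set of `p q` vertices and a set of `p` vertices, in which each set of at most `η p q` vertices of
the first kind can be matched into the second set.
-/

set_option autoImplicit false

namespace Pool.Agent.N49.KR

open Finset

/-- The number of the maps which send the edges at `E` to `F`. -/
theorem card_bad {T : Type} [Fintype T] [DecidableEq T] {p : ℕ} (E : Finset T) (F : Finset (Fin p)) :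
    (Fintype.piFinset (fun x : T × Fin 3 => if x.1 ∈ E then F else Finset.univ)).card =
      F.card ^ (3 * E.card) * p ^ (3 * (Fintype.card T - E.card)) := by
  classical
  rw [Fintype.card_piFinset]
  have h1 : ∀ x : T × Fin 3, (if x.1 ∈ E then F else (Finset.univ : Finset (Fin p))).card =
      if x.1 ∈ E then F.card else p := by
    intro x
    split_ifs
    · rfl
    · rw [Finset.card_univ, Fintype.card_fin]
  rw [Finset.prod_congr rfl fun x _ => h1 x, ← Finset.univ_product_univ, Finset.prod_product]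
  have h2 : ∀ t : T, ∏ _i : Fin 3, (if t ∈ E then F.card else p) =
      if t ∈ E then F.card ^ 3 else p ^ 3 := by
    intro t
    rw [Finset.prod_const, Finset.card_univ, Fintype.card_fin]
    split_ifs <;> rfl
  rw [Finset.prod_congr rfl fun t _ => h2 t, Finset.prod_ite, Finset.prod_const, Finset.prod_const,
    ← pow_mul, ← pow_mul]
  congr 3
  · rw [Finset.filter_mem_eq_inter, Finset.univ_inter]
  · rw [← Finset.card_univ, ← Finset.card_sdiff_of_subset (Finset.subset_univ E)]
    congr 1
    ext t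
    simp

theorem geo_sum (m : ℕ) : ∑ k ∈ Finset.Icc 1 m, (1 / 4 : ℝ) ^ k = (1 - (1 / 4) ^ m) / 3 := by
  induction m with
  | zero => simp
  | succ m ih =>
    rw [Finset.sum_Icc_succ_top (by omega), ih]
    ring

/-- The estimate of a term. -/
theorem term_le {p q k : ℕ} (hp : 0 < p) (hq : 0 < q)
    (hk : (k : ℝ) ≤ 1 / (32 * (q : ℝ) ^ 2) * (p * q)) :
    ((p * q).choose k : ℝ) * (p.choose k : ℝ) * ((k : ℝ) / p) ^ (3 * k) ≤ (1 / 4) ^ k := by
  have hp' : (0 : ℝ) < p := by exact_mod_cast hp
  have hq' : (0 : ℝ) < q := by exact_mod_cast hq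
  have h1 : ((p * q).choose k : ℝ) ≤ ((p : ℝ) * q) ^ k / k.factorial := by
    have := Nat.choose_le_pow_div (α := ℝ) k (p * q)
    push_cast at this
    exact this
  have h2 : (p.choose k : ℝ) ≤ (p : ℝ) ^ k / k.factorial := Nat.choose_le_pow_div (α := ℝ) k p
  have h3 : ((k : ℝ) ^ k / k.factorial) ≤ Real.exp k :=
    Real.pow_div_factorial_le_exp _ (Nat.cast_nonneg k) k
  have hf : (0 : ℝ) < k.factorial := by exact_mod_cast Nat.factorial_pos k
  have h4 : ((k : ℝ) ^ k / k.factorial) * ((k : ℝ) ^ k / k.factorial) ≤ 8 ^ k := by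
    calc ((k : ℝ) ^ k / k.factorial) * ((k : ℝ) ^ k / k.factorial) ≤ Real.exp k * Real.exp k :=
          mul_le_mul h3 h3 (by positivity) (Real.exp_pos _).le
      _ = (Real.exp 1 * Real.exp 1) ^ k := by
          rw [mul_pow, ← Real.exp_nat_mul, mul_one]
      _ ≤ 8 ^ k := by
          refine pow_le_pow_left₀ (by positivity) ?_ k
          have := Real.exp_one_lt_d9
          nlinarith [Real.exp_pos 1]
  have h5 : (q : ℝ) * ((k : ℝ) / p) ≤ 1 / 32 := by
    rw [← mul_div_assoc, div_le_iff₀ hp']
    calc (q : ℝ) * k ≤ q * (1 / (32 * (q : ℝ) ^ 2) * (p * q)) :=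
          mul_le_mul_of_nonneg_left hk hq'.le
      _ = 1 / 32 * p := by
          field_simp
  calc ((p * q).choose k : ℝ) * (p.choose k : ℝ) * ((k : ℝ) / p) ^ (3 * k)
      ≤ (((p : ℝ) * q) ^ k / k.factorial) * ((p : ℝ) ^ k / k.factorial) *
          ((k : ℝ) / p) ^ (3 * k) := by
        refine mul_le_mul_of_nonneg_right (mul_le_mul h1 h2 (by positivity) (by positivity))
          (by positivity)
    _ = (((k : ℝ) ^ k / k.factorial) * ((k : ℝ) ^ k / k.factorial)) *
          ((q : ℝ) * ((k : ℝ) / p)) ^ k := by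
        have e1 : ((k : ℝ) / p) ^ (3 * k) = ((k : ℝ) / p) ^ k * ((k : ℝ) / p) ^ k *
            ((k : ℝ) / p) ^ k := by
          rw [← pow_add, ← pow_add]
          congr 1
          omega
        have e2 : (p : ℝ) ^ k ≠ 0 := by positivity
        rw [e1, mul_pow, mul_pow, div_pow]
        field_simp
    _ ≤ 8 ^ k * (1 / 32) ^ k :=
        mul_le_mul h4 (pow_le_pow_left₀ (by positivity) h5 k) (by positivity) (by positivity)
    _ = (1 / 4) ^ k := by
        rw [← mul_pow]
        norm_num

theorem conc_aux {p q : ℕ} (hp : 0 < p) (hq : 0 < q) :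
    ∃ f : (Fin p × Fin q) × Fin 3 → Fin p, ∀ E : Finset (Fin p × Fin q),
      (E.card : ℝ) ≤ 1 / (32 * (q : ℝ) ^ 2) * (p * q) →
      E.card ≤ (E.biUnion fun t => Finset.univ.image fun i => f (t, i)).card := by
  classical
  by_contra hcon
  push Not at hcon
  have hp' : (0 : ℝ) < p := by exact_mod_cast hp
  have hq' : (0 : ℝ) < q := by exact_mod_cast hq
  let η : ℝ := 1 / (32 * (q : ℝ) ^ 2)
  let I : Finset ℕ := (Finset.Icc 1 p).filter fun k => (k : ℝ) ≤ η * (p * q)
  let Bd : Finset (Fin p × Fin q) → Finset (Fin p) → Finset ((Fin p × Fin q) × Fin 3 → Fin p) :=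
    fun E F => Fintype.piFinset (fun x : (Fin p × Fin q) × Fin 3 => if x.1 ∈ E then F else Finset.univ)
  have hcov : (Finset.univ : Finset ((Fin p × Fin q) × Fin 3 → Fin p)) ⊆
      I.biUnion fun k => (Finset.powersetCard k Finset.univ).biUnion fun E =>
        (Finset.powersetCard k Finset.univ).biUnion fun F => Bd E F := by
    intro f _
    obtain ⟨E, hE, hlt⟩ := hcon f
    have hE1 : 1 ≤ E.card := by omega
    have hEp : E.card ≤ p := by
      have h1 : (E.card : ℝ) ≤ p := by
        refine hE.trans ?_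
        have h2 : 1 / (32 * (q : ℝ) ^ 2) * (p * q) = p * (1 / (32 * q)) := by
          field_simp
        rw [h2]
        have h3 : 1 / (32 * (q : ℝ)) ≤ 1 := by
          rw [div_le_one (by positivity)]
          have : (1 : ℝ) ≤ q := by exact_mod_cast hq
          linarith
        nlinarith
      exact_mod_cast h1
    obtain ⟨F, hF, hFc⟩ := Finset.exists_superset_card_eq
      (s := E.biUnion fun t => Finset.univ.image fun i => f (t, i)) hlt.le
      (by rw [Fintype.card_fin]; exact hEp)
    rw [Finset.mem_biUnion]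
    refine ⟨E.card, Finset.mem_filter.2 ⟨Finset.mem_Icc.2 ⟨hE1, hEp⟩, hE⟩, ?_⟩
    rw [Finset.mem_biUnion]
    refine ⟨E, Finset.mem_powersetCard_univ.2 rfl, ?_⟩
    rw [Finset.mem_biUnion]
    refine ⟨F, Finset.mem_powersetCard_univ.2 hFc, ?_⟩
    rw [Fintype.mem_piFinset]
    rintro ⟨t, i⟩
    split_ifs with h
    · apply hF
      rw [Finset.mem_biUnion]
      exact ⟨t, h, Finset.mem_image_of_mem _ (Finset.mem_univ i)⟩
    · exact Finset.mem_univ _
  have h1 := Finset.card_le_card hcov
  rw [Finset.card_univ, Fintype.card_fun, Fintype.card_prod, Fintype.card_prod, Fintype.card_fin,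
    Fintype.card_fin, Fintype.card_fin] at h1
  have h2 : (I.biUnion fun k => (Finset.powersetCard k (Finset.univ : Finset (Fin p × Fin q))).biUnion
      fun E => (Finset.powersetCard k Finset.univ).biUnion fun F => Bd E F).card ≤
      ∑ k ∈ I, (p * q).choose k * (p.choose k * (k ^ (3 * k) * p ^ (3 * (p * q - k)))) := by
    refine Finset.card_biUnion_le.trans (Finset.sum_le_sum fun k hk => ?_)
    refine Finset.card_biUnion_le.trans ?_
    have h3 : ∀ E ∈ Finset.powersetCard k (Finset.univ : Finset (Fin p × Fin q)),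
        ((Finset.powersetCard k Finset.univ).biUnion fun F => Bd E F).card ≤
          p.choose k * (k ^ (3 * k) * p ^ (3 * (p * q - k))) := by
      intro E hE
      refine Finset.card_biUnion_le.trans ?_
      have h4 : ∀ F ∈ Finset.powersetCard k (Finset.univ : Finset (Fin p)),
          (Bd E F).card ≤ k ^ (3 * k) * p ^ (3 * (p * q - k)) := by
        intro F hF
        rw [Finset.mem_powersetCard_univ] at hE hF
        simp only [Bd]
        rw [card_bad, hE, hF, Fintype.card_prod, Fintype.card_fin, Fintype.card_fin]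
      refine (Finset.sum_le_card_nsmul _ _ _ h4).trans ?_
      rw [Finset.card_powersetCard, Finset.card_univ, Fintype.card_fin, smul_eq_mul]
    refine (Finset.sum_le_card_nsmul _ _ _ h3).trans ?_
    rw [Finset.card_powersetCard, Finset.card_univ, Fintype.card_prod, Fintype.card_fin,
      Fintype.card_fin, smul_eq_mul]
  have h5 : (p : ℝ) ^ (p * q * 3) ≤
      ∑ k ∈ I, ((p * q).choose k : ℝ) * ((p.choose k : ℝ) * ((k : ℝ) ^ (3 * k) *
        (p : ℝ) ^ (3 * (p * q - k)))) := by
    have := h1.trans h2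
    exact_mod_cast this
  have h6 : ∀ k ∈ I, ((p * q).choose k : ℝ) * ((p.choose k : ℝ) * ((k : ℝ) ^ (3 * k) *
        (p : ℝ) ^ (3 * (p * q - k)))) ≤ (p : ℝ) ^ (p * q * 3) * (1 / 4) ^ k := by
    intro k hk
    obtain ⟨hk1, hk2⟩ := Finset.mem_filter.1 hk
    have hkp : k ≤ p := (Finset.mem_Icc.1 hk1).2
    have hkpq : k ≤ p * q := hkp.trans (Nat.le_mul_of_pos_right p hq)
    have h7 := term_le hp hq hk2
    have h8 : (p : ℝ) ^ (p * q * 3) = (p : ℝ) ^ (3 * k) * (p : ℝ) ^ (3 * (p * q - k)) := by
      rw [← pow_add]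
      congr 1
      omega
    have h9 : ((p * q).choose k : ℝ) * ((p.choose k : ℝ) * ((k : ℝ) ^ (3 * k) *
        (p : ℝ) ^ (3 * (p * q - k)))) = (p : ℝ) ^ (p * q * 3) *
        (((p * q).choose k : ℝ) * (p.choose k : ℝ) * ((k : ℝ) / p) ^ (3 * k)) := by
      rw [h8, div_pow]
      field_simp
    rw [h9]
    exact mul_le_mul_of_nonneg_left h7 (by positivity)
  have h10 := h5.trans (Finset.sum_le_sum h6)
  rw [← Finset.mul_sum] at h10
  have h11 : ∑ k ∈ I, (1 / 4 : ℝ) ^ k ≤ 1 / 3 := by
    refine (Finset.sum_le_sum_of_subset_of_nonneg (Finset.filter_subset _ _)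
      fun k _ _ => by positivity).trans ?_
    rw [geo_sum]
    have : (0 : ℝ) ≤ (1 / 4) ^ p := by positivity
    linarith
  have h12 : (0 : ℝ) < (p : ℝ) ^ (p * q * 3) := by positivity
  nlinarith

/-- **Concentrators.** -/
theorem conc {q : ℕ} (hq : 0 < q) : ∃ η : ℝ, 0 < η ∧ ∀ p : ℕ, 0 < p →
    ∃ R : Fin p × Fin q → Fin 3 → Fin p, ∀ E : Finset (Fin p × Fin q),
      (E.card : ℝ) ≤ η * (p * q) → ∃ g : Fin p × Fin q → Fin 3,
        ∀ t ∈ E, ∀ t' ∈ E, R t (g t) = R t' (g t') → t = t' := by
  classical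
  have hq' : (0 : ℝ) < q := by exact_mod_cast hq
  refine ⟨1 / (32 * (q : ℝ) ^ 2), by positivity, fun p hp => ?_⟩
  obtain ⟨f, hf⟩ := conc_aux hp hq
  refine ⟨fun t i => f (t, i), fun E hE => ?_⟩
  have hall : ∀ s : Finset {t // t ∈ E},
      s.card ≤ (s.biUnion fun t => Finset.univ.image fun i => f (t.1, i)).card := by
    intro s
    have h1 := hf (s.map (Function.Embedding.subtype _)) (by
      rw [Finset.card_map]
      refine le_trans ?_ hE
      have : s.card ≤ E.card := by
        have := Finset.card_le_univ s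
        rwa [Fintype.card_coe] at this
      exact_mod_cast this)
    rw [Finset.card_map] at h1
    refine h1.trans (Finset.card_le_card ?_)
    intro x hx
    rw [Finset.mem_biUnion] at hx ⊢
    obtain ⟨t, ht, hx⟩ := hx
    obtain ⟨t', ht', rfl⟩ := Finset.mem_map.1 ht
    exact ⟨t', ht', hx⟩
  obtain ⟨m, hm, hm'⟩ := (Finset.all_card_le_biUnion_card_iff_exists_injective _).1 hall
  have hm'' : ∀ t : {t // t ∈ E}, ∃ i, f (t.1, i) = m t := by
    intro t
    have h2 := hm' t
    rw [Finset.mem_image] at h2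
    obtain ⟨i, -, hi⟩ := h2
    exact ⟨i, hi⟩
  choose g hg using hm''
  refine ⟨fun t => if h : t ∈ E then g ⟨t, h⟩ else 0, fun t ht t' ht' he => ?_⟩
  beta_reduce at he
  rw [dif_pos ht, dif_pos ht', hg ⟨t, ht⟩, hg ⟨t', ht'⟩] at he
  exact congrArg Subtype.val (hm he)

end Pool.Agent.N49.KR
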