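import Mathlib

/-!
# Measures and continuous outer measures on Boolean algebras: definitions of MP_2d6919_lc
-/

set_option autoImplicit false

namespace Pool.Agent.N49.KR

open Filter Topology

universe u

/-- A measure on a Boolean algebra `A`: strictly positive, finite and countably additive (for all sequences of
pairwise disjoint elements whose supremum exists in `A`). -/
structure IsMeasure {A : Type u} [BooleanAlgebra A] (μ : A → ℝ) : Prop where
  nonneg : ∀ a, 0 ≤ μ a
  pos : ∀ a, a ≠ ⊥ → 0 < μ a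
  add : ∀ (a : ℕ → A) (s : A), (∀ i j, i ≠ j → Disjoint (a i) (a j)) → IsLUB (Set.range a) s →
    HasSum (fun n => μ (a n)) (μ s)

/-- `A` admits a measure. -/
def HasMeasure (A : Type u) [BooleanAlgebra A] : Prop := ∃ μ : A → ℝ, IsMeasure μ

/-- A complete subalgebra: closed under all suprema and infima taken in `B`. -/
def IsCompleteSub {B : Type u} [CompleteBooleanAlgebra B] (L : BooleanSubalgebra B) : Prop :=
  ∀ S : Set B, S ⊆ L → sSup S ∈ L ∧ sInf S ∈ L

/-- Countably generated: the smallest complete subalgebra containing some countable set. -/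
def IsCtblyGenerated {B : Type u} [CompleteBooleanAlgebra B] (L : BooleanSubalgebra B) : Prop :=
  IsCompleteSub L ∧ ∃ S : Set B, S.Countable ∧ S ⊆ L ∧
    ∀ L' : BooleanSubalgebra B, IsCompleteSub L' → S ⊆ L' → L ≤ L'

/-- The countable chain condition. -/
def CCC (B : Type u) [BooleanAlgebra B] : Prop :=
  ∀ S : Set B, (∀ a ∈ S, a ≠ ⊥) → (∀ a ∈ S, ∀ b ∈ S, a ≠ b → Disjoint a b) → S.Countable

/-- A continuous outer measure. -/
structure IsContOuter {B : Type u} [CompleteBooleanAlgebra B] (m : B → ℝ) : Prop where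
  nonneg : ∀ a, 0 ≤ m a
  bot : m ⊥ = 0
  pos : ∀ a, a ≠ ⊥ → 0 < m a
  mono : ∀ a b, a ≤ b → m a ≤ m b
  sup : ∀ a b, m (a ⊔ b) ≤ m a + m b
  cont : ∀ a : ℕ → B, (∀ n, a (n + 1) ≤ a n) → ⨅ n, a n = ⊥ → Tendsto (fun n => m (a n)) atTop (𝓝 0)

end Pool.Agent.N49.KR
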