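import Pool.Agent.N49.KR.Meas
import Pool.Agent.N49.KR.Defs

/-!
# Measures on complete Boolean algebras with a continuous outer measure

The proof of the positive answer to MP_2d6919_lc.
-/

set_option autoImplicit false

namespace Pool.Agent.N49.KR

open Filter Topology Function

universe u

variable {B : Type u} [CompleteBooleanAlgebra B]

/-! ### Countably additive functions on subsets -/

/-- countably additive on the complete subalgebra `L` -/
structure Ca (L : BooleanSubalgebra B) (μ : B → ℝ) : Prop where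
  nonneg : ∀ a, 0 ≤ μ a
  add : ∀ a : ℕ → B, (∀ n, a n ∈ L) → (∀ i j, i ≠ j → Disjoint (a i) (a j)) →
    HasSum (fun n => μ (a n)) (μ (⨆ n, a n))

section ca

variable {L : BooleanSubalgebra B} {μ : B → ℝ} (h : Ca L μ)
include h

theorem ca_bot : μ ⊥ = 0 := by
  have h1 := h.add (fun _ => ⊥) (fun _ => L.bot_mem) (fun _ _ _ => disjoint_bot_left)
  have h2 := h1.summable.tendsto_atTop_zero
  exact tendsto_nhds_unique tendsto_const_nhds h2

theorem ca_add {a b : B} (ha : a ∈ L) (hb : b ∈ L) (hab : Disjoint a b) :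
    μ (a ⊔ b) = μ a + μ b := by
  let f : ℕ → B := fun n => if n = 0 then a else if n = 1 then b else ⊥
  have h0 : f 0 = a := rfl
  have h1 : f 1 = b := rfl
  have h2 : ∀ n, n ≠ 0 → n ≠ 1 → f n = ⊥ := fun n h h' => by
    simp only [f, h, h', if_false]
  have hf : ∀ n, f n ∈ L := by
    intro n
    simp only [f]
    split_ifs
    · exact ha
    · exact hb
    · exact L.bot_mem
  have hd : ∀ i j, i ≠ j → Disjoint (f i) (f j) := by
    intro i j hij
    simp only [f]
    split_ifs with g1 g2 g3 g4 g5 g6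
    · exact absurd (g1.trans g2.symm) hij
    · exact hab
    · exact disjoint_bot_right
    · exact hab.symm
    · exact absurd (g4.trans g6.symm) hij
    · exact disjoint_bot_right
    all_goals exact disjoint_bot_left
  have hs : (⨆ n, f n) = a ⊔ b := by
    refine le_antisymm (iSup_le fun n => ?_) (sup_le (h0 ▸ le_iSup f 0) (h1 ▸ le_iSup f 1))
    simp only [f]
    split_ifs
    · exact le_sup_left
    · exact le_sup_right
    · exact bot_le
  have h3 := h.add f hf hd
  rw [hs] at h3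
  have h4 : HasSum (fun n => μ (f n)) (∑ n ∈ Finset.range 2, μ (f n)) :=
    hasSum_sum_of_ne_finset_zero fun n hn => by
      rw [Finset.mem_range] at hn
      rw [h2 n (by omega) (by omega), ca_bot h]
  rw [h3.unique h4, Finset.sum_range_succ, Finset.sum_range_one, h0, h1]

theorem ca_mono {a b : B} (ha : a ∈ L) (hb : b ∈ L) (hab : a ≤ b) : μ a ≤ μ b := by
  have h1 := ca_add h ha (BooleanSubalgebra.sdiff_mem hb ha) disjoint_sdiff_self_right
  rw [sup_sdiff_cancel_right hab] at h1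
  linarith [h.nonneg (b \ a)]

theorem ca_sum {s : Finset B} (hs : ∀ a ∈ s, a ∈ L)
    (hd : ∀ a ∈ s, ∀ b ∈ s, a ≠ b → Disjoint a b) : ∑ a ∈ s, μ a = μ (s.sup id) ∧ s.sup id ∈ L := by
  classical
  induction s using Finset.induction_on with
  | empty =>
    rw [Finset.sum_empty, Finset.sup_empty, ca_bot h]
    exact ⟨rfl, L.bot_mem⟩
  | insert x s hx ih =>
    obtain ⟨h1, h2⟩ := ih (fun a ha => hs a (Finset.mem_insert_of_mem ha))
      (fun a ha b hb => hd a (Finset.mem_insert_of_mem ha) b (Finset.mem_insert_of_mem hb))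
    have h3 : Disjoint x (s.sup id) := by
      rw [Finset.disjoint_sup_right]
      intro b hb
      exact hd x (Finset.mem_insert_self _ _) b (Finset.mem_insert_of_mem hb)
        (fun h => hx (h ▸ hb))
    rw [Finset.sum_insert hx, Finset.sup_insert, id, ca_add h (hs x (Finset.mem_insert_self _ _)) h2 h3,
      h1]
    exact ⟨rfl, BooleanSubalgebra.sup_mem (hs x (Finset.mem_insert_self _ _)) h2⟩

theorem ca_iSup (hL : IsCompleteSub L) {x : ℕ → B} (hx : ∀ n, x n ∈ L) {c : ℕ → ℝ} {S : ℝ}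
    (hc : ∀ n, μ (x n) ≤ c n) (hS : HasSum c S) : μ (⨆ n, x n) ≤ S := by
  have h1 : ∀ n, disjointed x n ∈ L := by
    intro n
    rw [disjointed_apply]
    refine BooleanSubalgebra.sdiff_mem (hx n) ?_
    rw [Finset.sup_eq_sSup_image]
    refine (hL _ ?_).1
    rintro _ ⟨i, -, rfl⟩
    exact hx i
  have h2 := h.add (disjointed x) h1 (fun i j hij => disjoint_disjointed x hij)
  rw [iSup_disjointed] at h2
  exact hasSum_le (fun n => (ca_mono h (h1 n) (hx n) (disjointed_le x n)).trans (hc n)) h2 hS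

end ca

theorem ca_of {L : BooleanSubalgebra B} (hL : IsCompleteSub L) {ν : L → ℝ} (hν : IsMeasure ν) :
    ∃ μ : B → ℝ, Ca L μ ∧ ∀ a ∈ L, a ≠ ⊥ → 0 < μ a := by
  classical
  refine ⟨fun a => if ha : a ∈ L then ν ⟨a, ha⟩ else 0, ⟨fun a => ?_, fun a ha hd => ?_⟩,
    fun a ha hne => ?_⟩
  · by_cases ha : a ∈ L
    · simp only [ha, dif_pos]
      exact hν.nonneg _
    · simp only [ha, dif_neg, not_false_eq_true]
      exact le_rfl
  · have hs : (⨆ n, a n) ∈ L := by
      refine (hL (Set.range a) ?_).1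
      rintro _ ⟨n, rfl⟩
      exact ha n
    have h1 := hν.add (fun n => ⟨a n, ha n⟩) ⟨⨆ n, a n, hs⟩ (fun i j hij => by
      rw [disjoint_iff]
      apply Subtype.ext
      exact (disjoint_iff.1 (hd i j hij))) (by
      constructor
      · rintro _ ⟨n, rfl⟩
        exact le_iSup a n
      · intro b hb
        exact iSup_le (fun n => hb ⟨n, rfl⟩))
    have h2 : ∀ n, (if h : a n ∈ L then ν ⟨a n, h⟩ else 0) = ν ⟨a n, ha n⟩ := fun n => dif_pos (ha n)
    simp only [h2]
    rw [dif_pos hs]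
    exact h1
  · simp only [ha, dif_pos]
    refine hν.pos _ fun h => hne ?_
    have := congrArg Subtype.val h
    exact this

/-! ### The complete subalgebra generated by a set -/

/-- the complete subalgebra generated by `S` -/
def gen (S : Set B) : BooleanSubalgebra B where
  carrier := {x | ∀ L : BooleanSubalgebra B, IsCompleteSub L → S ⊆ L → x ∈ L}
  supClosed' := fun _ ha _ hb L hL hS => BooleanSubalgebra.sup_mem (ha L hL hS) (hb L hL hS)
  infClosed' := fun _ ha _ hb L hL hS => BooleanSubalgebra.inf_mem (ha L hL hS) (hb L hL hS)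
  compl_mem' := fun ha L hL hS => BooleanSubalgebra.compl_mem (ha L hL hS)
  bot_mem' := fun L _ _ => L.bot_mem

theorem mem_gen {S : Set B} {x : B} : x ∈ gen S ↔
    ∀ L : BooleanSubalgebra B, IsCompleteSub L → S ⊆ L → x ∈ L := Iff.rfl

theorem gen_complete (S : Set B) : IsCompleteSub (gen S) := by
  intro T hT
  constructor
  · rw [mem_gen]
    intro L hL hS
    exact (hL T fun x hx => mem_gen.1 (hT hx) L hL hS).1
  · rw [mem_gen]
    intro L hL hS
    exact (hL T fun x hx => mem_gen.1 (hT hx) L hL hS).2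

theorem gen_ctbly {S : Set B} (hS : S.Countable) : IsCtblyGenerated (gen S) :=
  ⟨gen_complete S, S, hS, fun _ hx => mem_gen.2 fun _ _ hS => hS hx,
    fun L hL hSL _ hx => mem_gen.1 hx L hL hSL⟩

/-- **Uniform exhaustivity.** -/
theorem ue_of {m : B → ℝ} (hm : IsContOuter m)
    (hsub : ∀ L : BooleanSubalgebra B, IsCtblyGenerated L → HasMeasure L) : UE m := by
  classical
  intro ε hε
  by_contra hcon
  push Not at hcon
  choose s hs1 hs2 hs3 using hcon
  have hSc : (⋃ n, (s n : Set B)).Countable := Set.countable_iUnion fun n => (s n).countable_toSet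
  obtain ⟨L, hLd⟩ : ∃ L, L = gen (⋃ n, (s n : Set B)) := ⟨_, rfl⟩
  have hL : IsCompleteSub L := hLd ▸ gen_complete _
  have hsL : ∀ n, ∀ x ∈ s n, x ∈ L := by
    intro n x hx
    rw [hLd, mem_gen]
    intro L' _ h
    exact h (Set.mem_iUnion.2 ⟨n, hx⟩)
  obtain ⟨ν, hν⟩ := hsub L (hLd ▸ gen_ctbly hSc)
  obtain ⟨μ, hμ, hμpos⟩ := ca_of hL hν
  have hM0 := hμ.nonneg ⊤
  -- small elements
  have hex : ∀ k : ℕ, ∃ x ∈ s (2 ^ k), μ x ≤ μ ⊤ / 2 ^ k := by
    intro k
    by_contra hno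
    push Not at hno
    have h1 := ca_sum hμ (hsL (2 ^ k)) (hs1 (2 ^ k))
    have h2 : μ ((s (2 ^ k)).sup id) ≤ μ ⊤ := ca_mono hμ h1.2 BooleanSubalgebra.top_mem le_top
    have h3 : ∑ x ∈ s (2 ^ k), μ ⊤ / 2 ^ k ≤ ∑ x ∈ s (2 ^ k), μ x :=
      Finset.sum_le_sum fun x hx => (hno x hx).le
    rw [Finset.sum_const, nsmul_eq_mul] at h3
    have h4 : ((2 ^ k : ℕ) : ℝ) + 1 ≤ (s (2 ^ k)).card := by exact_mod_cast hs3 (2 ^ k)
    push_cast at h4
    have h5 : (0 : ℝ) < 2 ^ k := by positivity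
    have hne : (s (2 ^ k)).Nonempty := by
      rw [← Finset.card_pos]
      exact lt_of_le_of_lt (Nat.zero_le _) (hs3 (2 ^ k))
    obtain ⟨x0, hx0⟩ := hne
    have h6 : ∑ x ∈ s (2 ^ k), μ ⊤ / 2 ^ k < ∑ x ∈ s (2 ^ k), μ x :=
      Finset.sum_lt_sum (fun x hx => (hno x hx).le) ⟨x0, hx0, hno x0 hx0⟩
    rw [Finset.sum_const, nsmul_eq_mul] at h6
    have h7 : μ ⊤ ≤ ((s (2 ^ k)).card : ℝ) * (μ ⊤ / 2 ^ k) := by
      have h8 : (2 : ℝ) ^ k * (μ ⊤ / 2 ^ k) ≤ ((s (2 ^ k)).card : ℝ) * (μ ⊤ / 2 ^ k) :=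
        mul_le_mul_of_nonneg_right (by linarith) (by positivity)
      rwa [mul_div_cancel₀ _ h5.ne'] at h8
    rw [h1.1] at h6
    linarith
  choose x hx hxμ using hex
  have hxL : ∀ k, x k ∈ L := fun k => hsL _ _ (hx k)
  have hxm : ∀ k, ε ≤ m (x k) := fun k => hs2 _ _ (hx k)
  obtain ⟨y, hy⟩ : ∃ y : ℕ → B, y = fun k => ⨆ j, x (k + j) := ⟨_, rfl⟩
  have hyL : ∀ k, y k ∈ L := by
    intro k
    rw [hy]
    refine (hL (Set.range fun j => x (k + j)) ?_).1
    rintro _ ⟨j, rfl⟩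
    exact hxL _
  have hyμ : ∀ k, μ (y k) ≤ μ ⊤ / 2 ^ k * 2 := by
    intro k
    rw [hy]
    refine ca_iSup hμ hL (fun j => hxL (k + j)) (c := fun j => μ ⊤ / 2 ^ k * (1 / 2) ^ j)
      (fun j => (hxμ (k + j)).trans (le_of_eq ?_)) (hasSum_geometric_two.mul_left _)
    rw [pow_add, one_div, inv_pow]
    field_simp
  have hanti : ∀ k, y (k + 1) ≤ y k := by
    intro k
    rw [hy]
    refine iSup_le fun j => ?_
    have e : k + 1 + j = k + (j + 1) := by ring
    rw [e]
    exact le_iSup (fun j => x (k + j)) (j + 1)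
  have hinf : (⨅ k, y k) ∈ L := by
    refine (hL (Set.range y) ?_).2
    rintro _ ⟨j, rfl⟩
    exact hyL _
  have hzero : μ (⨅ k, y k) ≤ 0 := by
    have h1 : ∀ k, μ (⨅ k, y k) ≤ μ ⊤ * 2 * (1 / 2) ^ k := by
      intro k
      refine ((ca_mono hμ hinf (hyL k) (iInf_le y k)).trans (hyμ k)).trans (le_of_eq ?_)
      rw [one_div, inv_pow]
      field_simp
    have h2 : Tendsto (fun k : ℕ => μ ⊤ * 2 * (1 / 2 : ℝ) ^ k) atTop (𝓝 (μ ⊤ * 2 * 0)) :=
      (tendsto_pow_atTop_nhds_zero_of_lt_one (by norm_num) (by norm_num)).const_mul _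
    rw [mul_zero] at h2
    exact ge_of_tendsto' h2 h1
  have hbot : (⨅ k, y k) = ⊥ := by
    by_contra hne
    have := hμpos _ hinf hne
    linarith
  have h1 := hm.cont y hanti hbot
  have h2 : ∀ k, ε ≤ m (y k) := by
    intro k
    refine (hxm k).trans (hm.mono _ _ ?_)
    rw [hy]
    exact le_iSup (fun j => x (k + j)) 0
  have h3 := ge_of_tendsto' h1 h2
  linarith

/-! ### Local measures -/

/-- a finite countably additive functional, not necessarily strictly positive -/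
structure Fn (m : B → ℝ) (ν : B → ℝ) : Prop where
  ca : Ca ⊤ ν
  le : ∀ a, ν a ≤ m a

theorem exists_local {m : B → ℝ} (hm : IsContOuter m) (hU : UE m) {a : B} (ha : a ≠ ⊥) :
    ∃ ν : B → ℝ, Fn m ν ∧ 0 < ν a := by
  classical
  have hφ : Sub (fun x => m (x ⊓ a)) := by
    refine ⟨?_, fun {x y} hxy => ?_, fun x y => ?_⟩
    · show m (⊥ ⊓ a) = 0
      rw [bot_inf_eq, hm.bot]
    · exact hm.mono _ _ (inf_le_inf_right a hxy)
    · show m ((x ⊔ y) ⊓ a) ≤ _
      rw [inf_sup_right]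
      exact hm.sup _ _
  have hU' : UE (fun x => m (x ⊓ a)) := by
    intro ε hε
    obtain ⟨n, hn⟩ := hU ε hε
    exact ⟨n, fun s hs1 hs2 => hn s hs1 fun x hx => (hs2 x hx).trans (hm.mono _ _ inf_le_left)⟩
  obtain ⟨ν, h0, h1, h2, h3⟩ := exists_additive hφ hU' (by
    show 0 < m (⊤ ⊓ a)
    rw [top_inf_eq]
    exact hm.pos a ha)
  have hle : ∀ x, ν x ≤ m x := fun x => (h1 x).trans (hm.mono _ _ inf_le_left)
  have hbot : ν ⊥ = 0 := by
    have := h2 ⊥ ⊥ disjoint_bot_left
    rw [sup_idem] at this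
    linarith
  have hmono : ∀ x y, x ≤ y → ν x ≤ ν y := by
    intro x y hxy
    have h4 := h2 x (y \ x) disjoint_sdiff_self_right
    rw [sup_sdiff_cancel_right hxy] at h4
    linarith [h0 (y \ x)]
  refine ⟨ν, ⟨⟨h0, fun x _ hd => ?_⟩, hle⟩, ?_⟩
  · -- countable additivity
    obtain ⟨S, hS⟩ : ∃ S : ℕ → B, S = fun n => (Finset.range n).sup x := ⟨_, rfl⟩
    have hS0 : S 0 = ⊥ := by
      rw [hS]
      simp
    have hSs : ∀ n, S (n + 1) = S n ⊔ x n := by
      intro n
      rw [hS]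
      show (Finset.range (n + 1)).sup x = _
      rw [Finset.range_add_one, Finset.sup_insert, sup_comm]
    have hSd : ∀ n, Disjoint (S n) (x n) := by
      intro n
      rw [hS]
      show Disjoint ((Finset.range n).sup x) (x n)
      rw [Finset.disjoint_sup_left]
      intro i hi
      rw [Finset.mem_range] at hi
      exact hd i n (by omega)
    have hsum : ∀ n, ∑ i ∈ Finset.range n, ν (x i) = ν (S n) := by
      intro n
      induction n with
      | zero => rw [Finset.sum_range_zero, hS0, hbot]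
      | succ n ih => rw [Finset.sum_range_succ, ih, hSs, h2 _ _ (hSd n)]
    have hSle : ∀ n, S n ≤ ⨆ i, x i := by
      intro n
      rw [hS]
      exact Finset.sup_le fun i _ => le_iSup x i
    obtain ⟨R, hR⟩ : ∃ R : ℕ → B, R = fun n => (⨆ i, x i) \ S n := ⟨_, rfl⟩
    have hRanti : ∀ n, R (n + 1) ≤ R n := by
      intro n
      rw [hR]
      show (⨆ i, x i) \ S (n + 1) ≤ (⨆ i, x i) \ S n
      rw [hSs]
      exact sdiff_le_sdiff_left le_sup_left
    have hRbot : ⨅ n, R n = ⊥ := by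
      have h5 : ∀ i, Disjoint (⨅ n, R n) (x i) := by
        intro i
        have h6 : Disjoint (R (i + 1)) (x i) := by
          rw [hR]
          show Disjoint ((⨆ i, x i) \ S (i + 1)) (x i)
          refine disjoint_sdiff_self_left.mono_right ?_
          rw [hSs]
          exact le_sup_right
        exact h6.mono_left (iInf_le R (i + 1))
      have h6 : Disjoint (⨅ n, R n) (⨆ i, x i) := disjoint_iSup_iff.2 h5
      have h7 : (⨅ n, R n) ≤ ⨆ i, x i := by
        refine (iInf_le R 0).trans ?_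
        rw [hR]
        exact sdiff_le
      have := h6.mono_right h7
      rwa [disjoint_self] at this
    have h5 := hm.cont R hRanti hRbot
    have h6 : Tendsto (fun n => ν (R n)) atTop (𝓝 0) :=
      squeeze_zero (fun n => h0 _) (fun n => hle _) h5
    rw [hasSum_iff_tendsto_nat_of_nonneg fun n => h0 _]
    have h7 : ∀ n, ∑ i ∈ Finset.range n, ν (x i) = ν (⨆ i, x i) - ν (R n) := by
      intro n
      rw [hsum]
      have h8 := h2 (S n) (R n) (by
        rw [hR]
        exact disjoint_sdiff_self_right)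
      have h9 : S n ⊔ R n = ⨆ i, x i := by
        rw [hR]
        exact sup_sdiff_cancel_right (hSle n)
      rw [h9] at h8
      linarith
    simp only [h7]
    have := (tendsto_const_nhds (x := ν (⨆ i, x i))).sub h6
    rwa [sub_zero] at this
  · have h4 := h2 a aᶜ disjoint_compl_right
    rw [sup_compl_eq_top] at h4
    have h5 := h1 aᶜ
    simp only [compl_inf_self] at h5
    rw [hm.bot] at h5
    linarith

/-! ### Maximal families -/

theorem exists_max (T : Set B) : ∃ V : Set B, V ⊆ T ∧ (∀ a ∈ V, ∀ b ∈ V, a ≠ b → Disjoint a b) ∧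
    ∀ t ∈ T, (∀ v ∈ V, Disjoint t v) → t ∈ V := by
  obtain ⟨V, hV⟩ := zorn_subset {V : Set B | V ⊆ T ∧ ∀ a ∈ V, ∀ b ∈ V, a ≠ b → Disjoint a b} (by
    intro C hC hch
    refine ⟨⋃₀ C, ⟨?_, ?_⟩, fun s hs => Set.subset_sUnion_of_mem hs⟩
    · exact Set.sUnion_subset fun s hs => (hC hs).1
    · rintro a ⟨s, hs, has⟩ b ⟨t, ht, hbt⟩ hab
      rcases hch.total hs ht with h | h
      · exact (hC ht).2 a (h has) b hbt hab
      · exact (hC hs).2 a has b (h hbt) hab)
  refine ⟨V, hV.prop.1, hV.prop.2, fun t ht hd => ?_⟩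
  have h1 : insert t V ∈ {V : Set B | V ⊆ T ∧ ∀ a ∈ V, ∀ b ∈ V, a ≠ b → Disjoint a b} := by
    refine ⟨Set.insert_subset ht hV.prop.1, ?_⟩
    rintro a (rfl | ha) b (rfl | hb) hab
    · exact absurd rfl hab
    · exact hd b hb
    · exact (hd a ha).symm
    · exact hV.prop.2 a ha b hb hab
  exact hV.le_of_ge h1 (Set.subset_insert t V) (Set.mem_insert t V)

/-- **Local strict positivity.** -/
theorem exists_strict (hccc : CCC B) {m : B → ℝ} (hm : IsContOuter m) (hU : UE m) {a : B}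
    (ha : a ≠ ⊥) : ∃ z : B, z ≤ a ∧ z ≠ ⊥ ∧ ∃ ν : B → ℝ, Fn m ν ∧ ∀ x ≤ z, x ≠ ⊥ → 0 < ν x := by
  classical
  obtain ⟨ν, hν, hνa⟩ := exists_local hm hU ha
  have htop : ∀ x : B, x ∈ (⊤ : BooleanSubalgebra B) := fun x => trivial
  obtain ⟨V, hVT, hVd, hVmax⟩ := exists_max {y : B | y ≤ a ∧ y ≠ ⊥ ∧ ν y = 0}
  have hVc : V.Countable := hccc V (fun y hy => (hVT hy).2.1) hVd
  have hnull : ν (sSup V) = 0 := by
    refine le_antisymm ?_ (hν.ca.nonneg _)
    rcases V.eq_empty_or_nonempty with h | h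
    · rw [h, sSup_empty, ca_bot hν.ca]
    · obtain ⟨f, hf⟩ := hVc.exists_eq_range h
      rw [hf, sSup_range]
      refine ca_iSup hν.ca (fun S _ => ⟨trivial, trivial⟩) (fun n => htop _) (c := fun _ => 0)
        (fun n => ?_) hasSum_zero
      have : f n ∈ V := by
        rw [hf]
        exact ⟨n, rfl⟩
      exact (hVT this).2.2.le
  have hsle : sSup V ≤ a := sSup_le fun y hy => (hVT hy).1
  have hz : 0 < ν (a \ sSup V) := by
    have h1 := ca_add hν.ca (htop (sSup V)) (htop (a \ sSup V)) disjoint_sdiff_self_right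
    rw [sup_sdiff_cancel_right hsle] at h1
    linarith
  refine ⟨a \ sSup V, sdiff_le, fun h => ?_, ν, hν, fun x hx hne => ?_⟩
  · rw [h, ca_bot hν.ca] at hz
    exact lt_irrefl _ hz
  · refine lt_of_le_of_ne (hν.ca.nonneg _) fun h0 => ?_
    have hdis : Disjoint x (sSup V) := disjoint_sdiff_self_left.mono_left hx
    have h1 := hVmax x ⟨hx.trans sdiff_le, hne, h0.symm⟩ (fun v hv =>
      hdis.mono_right (le_sSup hv))
    have h2 := hdis.mono_right (le_sSup h1)
    rw [disjoint_self] at h2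
    exact hne h2

/-- **The main theorem.** -/
theorem main (hccc : CCC B)
    (hsub : ∀ L : BooleanSubalgebra B, IsCtblyGenerated L → HasMeasure L)
    (hm : ∃ m : B → ℝ, IsContOuter m) : HasMeasure B := by
  classical
  obtain ⟨m, hm⟩ := hm
  have hU := ue_of hm hsub
  have htop : ∀ x : B, x ∈ (⊤ : BooleanSubalgebra B) := fun x => trivial
  obtain ⟨W, hWT, hWd, hWmax⟩ := exists_max {z : B | z ≠ ⊥ ∧
    ∃ ν : B → ℝ, Fn m ν ∧ ∀ x ≤ z, x ≠ ⊥ → 0 < ν x}
  have hWc : W.Countable := hccc W (fun y hy => (hWT hy).1) hWd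
  have h0 : Fn m (fun _ : B => (0 : ℝ)) :=
    ⟨⟨fun _ => le_rfl, fun _ _ _ => hasSum_zero⟩, hm.nonneg⟩
  obtain ⟨w, hw⟩ := (hWc.insert ⊥).exists_eq_range (Set.insert_nonempty _ _)
  have hν : ∀ n, ∃ ν : B → ℝ, Fn m ν ∧ ∀ x ≤ w n, x ≠ ⊥ → 0 < ν x := by
    intro n
    have h1 : w n ∈ insert ⊥ W := by
      rw [hw]
      exact ⟨n, rfl⟩
    rcases h1 with h1 | h1
    · refine ⟨_, h0, fun x hx hne => ?_⟩
      rw [h1] at hx
      exact absurd (le_bot_iff.1 hx) hne
    · exact (hWT h1).2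
  choose ν hν1 hν2 using hν
  have hbd : ∀ n x, (1 / 2 : ℝ) ^ n * ν n x ≤ (1 / 2 : ℝ) ^ n * m ⊤ := fun n x =>
    mul_le_mul_of_nonneg_left (((hν1 n).le x).trans (hm.mono _ _ le_top)) (by positivity)
  have hnn : ∀ n x, 0 ≤ (1 / 2 : ℝ) ^ n * ν n x := fun n x =>
    mul_nonneg (by positivity) ((hν1 n).ca.nonneg x)
  have hgeo : Summable fun n : ℕ => (1 / 2 : ℝ) ^ n * m ⊤ := summable_geometric_two.mul_right _
  have hsum : ∀ x, Summable fun n => (1 / 2 : ℝ) ^ n * ν n x := fun x =>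
    Summable.of_nonneg_of_le (fun n => hnn n x) (fun n => hbd n x) hgeo
  refine ⟨fun x => ∑' n, (1 / 2 : ℝ) ^ n * ν n x, fun x => tsum_nonneg fun n => hnn n x,
    fun x hx => ?_, fun x s hd hs => ?_⟩
  · -- positivity
    have hex : ∃ n, x ⊓ w n ≠ ⊥ := by
      by_contra hcon
      push Not at hcon
      obtain ⟨z, hzx, hz0, hz⟩ := exists_strict hccc hm hU hx
      have h1 : z ∈ W := hWmax z ⟨hz0, hz⟩ fun v hv => by
        have h2 : v ∈ insert ⊥ W := Set.mem_insert_of_mem _ hv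
        rw [hw] at h2
        obtain ⟨n, rfl⟩ := h2
        exact (disjoint_iff.2 (hcon n)).mono_left hzx
      have h2 : z ∈ insert ⊥ W := Set.mem_insert_of_mem _ h1
      rw [hw] at h2
      obtain ⟨n, hn⟩ := h2
      have h3 := hcon n
      rw [hn, inf_eq_right.2 hzx] at h3
      exact hz0 h3
    obtain ⟨n, hn⟩ := hex
    have h1 := hν2 n (x ⊓ w n) inf_le_right hn
    have h2 := ca_mono (hν1 n).ca (htop (x ⊓ w n)) (htop x) inf_le_left
    exact (hsum x).tsum_pos (fun n => hnn n x) n (mul_pos (by positivity) (by linarith))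
  · -- countable additivity
    have hs' : s = ⨆ i, x i := (hs.unique isLUB_iSup)
    have hrow : ∀ n, HasSum (fun i => (1 / 2 : ℝ) ^ n * ν n (x i)) ((1 / 2 : ℝ) ^ n * ν n s) := by
      intro n
      have := (hν1 n).ca.add x (fun _ => htop _) hd
      rw [hs']
      exact this.mul_left _
    have hS : Summable fun p : ℕ × ℕ => (1 / 2 : ℝ) ^ p.1 * ν p.1 (x p.2) := by
      rw [summable_prod_of_nonneg fun p => hnn _ _]
      refine ⟨fun n => (hrow n).summable, ?_⟩
      have h1 : (fun n => ∑' i, (1 / 2 : ℝ) ^ n * ν n (x i)) = fun n => (1 / 2 : ℝ) ^ n * ν n s :=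
        funext fun n => (hrow n).tsum_eq
      rw [h1]
      exact hsum s
    have h2 := hS.hasSum.prod_fiberwise hrow
    have h3 : HasSum (fun p : ℕ × ℕ => (1 / 2 : ℝ) ^ p.2 * ν p.2 (x p.1))
        (∑' p : ℕ × ℕ, (1 / 2 : ℝ) ^ p.1 * ν p.1 (x p.2)) :=
      (Equiv.prodComm ℕ ℕ).hasSum_iff.2 hS.hasSum
    have h4 := h3.prod_fiberwise fun i => (hsum (x i)).hasSum
    rw [h2.tsum_eq]
    exact h4

end Pool.Agent.N49.KR
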