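import Pool.Agent.N49.KR.Ran

/-!
# The theorem of Kalton and Roberts

A uniformly exhaustive submeasure `φ` with `φ ⊤ > 0` has a nonzero additive functional below it.
-/

set_option autoImplicit false
set_option linter.unusedSectionVars false

namespace Pool.Agent.N49.KR

open Finset

universe u

variable {B : Type u} [BooleanAlgebra B]

open scoped Classical in
/-- Covers are expensive. -/
theorem cover_cost {φ : B → ℝ} (hφ : Sub φ) (hU : UE φ) (h1 : 0 < φ ⊤) :
    ∃ δ : ℝ, 0 < δ ∧ ∀ (ι : Type) [Fintype ι] (a : ι → B) (K : ℕ), 0 < K →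
      (∀ x : Pt B, K ≤ (Finset.univ.filter fun i => x.mem (a i)).card) →
      δ * K < ∑ i, φ (a i) := by
  have hB : (⊤ : B) ≠ ⊥ := by
    intro h
    rw [h, hφ.bot] at h1
    exact lt_irrefl _ h1
  obtain ⟨n, hn⟩ := hU (φ ⊤ / 6) (by linarith)
  obtain ⟨η, hη, hR⟩ := conc (q := n + 1) (Nat.succ_pos n)
  obtain ⟨δ, hδ, H⟩ := random_cover hφ hB (η := η) (κ := φ ⊤ / 2) hη (by linarith)
  refine ⟨δ, hδ, fun ι _ a K hK hcov => ?_⟩
  by_contra hcon
  rw [not_lt] at hcon
  obtain ⟨p, b, hp, hb, hex⟩ := H ι a K hK hcov hcon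
  obtain ⟨R, hR⟩ := hR p hp
  obtain ⟨s, hs1, hs2, hs3⟩ := disj_family hφ hp (Nat.succ_pos n) hR (fun t => (b t)ᶜ)
    (fun x => by
      refine le_trans (le_of_eq ?_) (hex x)
      congr 2
      ext t
      simp only [Finset.mem_filter, Finset.mem_univ, true_and]
      exact x.compl (b t))
    (α := φ ⊤ / 2) (by linarith) fun t => by
      have h2 := hφ.sup (b t) (b t)ᶜ
      rw [sup_compl_eq_top] at h2
      linarith [hb t]
  have h3 := hn s hs1 fun a ha => by
    have := hs2 a ha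
    linarith
  omega

/-- The indicator function. -/
noncomputable def ind (x : Pt B) (b : B) : ℝ := by
  classical exact if x.mem b then 1 else 0

theorem ind_of_mem {x : Pt B} {b : B} (h : x.mem b) : ind x b = 1 := by
  classical
  unfold ind
  exact if_pos h

theorem ind_of_notMem {x : Pt B} {b : B} (h : ¬ x.mem b) : ind x b = 0 := by
  classical
  unfold ind
  exact if_neg h

theorem ind_nonneg (x : Pt B) (b : B) : 0 ≤ ind x b := by
  by_cases h : x.mem b
  · rw [ind_of_mem h]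
    exact zero_le_one
  · rw [ind_of_notMem h]

/-- The value at a point. -/
noncomputable def ev (x : Pt B) : (B →₀ ℝ) →ₗ[ℝ] ℝ := Finsupp.linearCombination ℝ (ind x)

theorem ev_apply (x : Pt B) (w : B →₀ ℝ) : ev x w = ∑ b ∈ w.support, w b * ind x b := by
  unfold ev
  rw [Finsupp.linearCombination_apply, Finsupp.sum]
  rfl

theorem lc_apply (φ : B → ℝ) (w : B →₀ ℝ) :
    Finsupp.linearCombination ℝ φ w = ∑ b ∈ w.support, w b * φ b := by
  rw [Finsupp.linearCombination_apply, Finsupp.sum]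
  rfl

/-- Weighted covers are expensive. -/
theorem weight_cost {φ : B → ℝ} (hφ : Sub φ) (hU : UE φ) (h1 : 0 < φ ⊤) :
    ∃ δ : ℝ, 0 < δ ∧ ∀ w : B →₀ ℝ, (∀ b, 0 ≤ w b) → (∀ x : Pt B, 1 ≤ ev x w) →
      δ ≤ Finsupp.linearCombination ℝ φ w := by
  classical
  obtain ⟨δ, hδ, H⟩ := cover_cost hφ hU h1
  refine ⟨δ, hδ, fun w hw hcov => ?_⟩
  by_contra hcon
  rw [not_le] at hcon
  set s := w.support with hs
  let e : Fin s.card ≃ {b // b ∈ s} := s.equivFin.symm
  have hsum : ∀ f : B → ℝ, ∑ b ∈ s, f b = ∑ i : Fin s.card, f (e i).1 := by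
    intro f
    rw [← Finset.sum_coe_sort s f]
    exact (Equiv.sum_comp e fun b : {b // b ∈ s} => f b.1).symm
  have hC : 0 ≤ ∑ i : Fin s.card, φ (e i).1 := Finset.sum_nonneg fun i _ => hφ.nonneg _
  obtain ⟨K, hK⟩ := exists_nat_gt ((∑ i : Fin s.card, φ (e i).1) /
    (δ - Finsupp.linearCombination ℝ φ w))
  have hgap : 0 < δ - Finsupp.linearCombination ℝ φ w := by linarith
  have hK0' : (0 : ℝ) < K := lt_of_le_of_lt (div_nonneg hC hgap.le) hK
  have hK0 : 0 < K := by exact_mod_cast hK0'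
  rw [div_lt_iff₀ hgap] at hK
  let m : Fin s.card → ℕ := fun i => ⌈(K : ℝ) * w (e i).1⌉₊
  have hm1 : ∀ i, (K : ℝ) * w (e i).1 ≤ m i := fun i => Nat.le_ceil _
  have hm2 : ∀ i, (m i : ℝ) ≤ K * w (e i).1 + 1 := fun i =>
    (Nat.ceil_lt_add_one (mul_nonneg hK0'.le (hw _))).le
  have h2 := H ((i : Fin s.card) × Fin (m i)) (fun x => (e x.1).1) K hK0 (by
    intro x
    have h3 : (Finset.univ.filter fun i : (i : Fin s.card) × Fin (m i) => x.mem (e i.1).1).card =
        ∑ i : Fin s.card, if x.mem (e i).1 then m i else 0 := by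
      rw [Finset.card_filter, Fintype.sum_sigma]
      refine Finset.sum_congr rfl fun i _ => ?_
      simp only
      split_ifs
      · simp
      · simp
    rw [h3]
    have h4 : (K : ℝ) ≤ ((∑ i : Fin s.card, if x.mem (e i).1 then m i else 0 : ℕ) : ℝ) := by
      push_cast
      have h5 := hcov x
      rw [ev_apply, hsum fun b => w b * ind x b] at h5
      calc (K : ℝ) = K * 1 := (mul_one _).symm
        _ ≤ K * ∑ i : Fin s.card, w (e i).1 * ind x (e i).1 :=
            mul_le_mul_of_nonneg_left h5 hK0'.le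
        _ = ∑ i : Fin s.card, K * (w (e i).1 * ind x (e i).1) := Finset.mul_sum _ _ _
        _ ≤ _ := by
            refine Finset.sum_le_sum fun i _ => ?_
            by_cases hx : x.mem (e i).1
            · rw [ind_of_mem hx, mul_one, if_pos hx]
              exact hm1 i
            · rw [ind_of_notMem hx, if_neg hx, mul_zero, mul_zero]
    exact_mod_cast h4)
  rw [Fintype.sum_sigma] at h2
  simp only [Finset.sum_const, Finset.card_univ, Fintype.card_fin, nsmul_eq_mul] at h2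
  have h6 : ∑ i : Fin s.card, (m i : ℝ) * φ (e i).1 ≤
      K * Finsupp.linearCombination ℝ φ w + ∑ i : Fin s.card, φ (e i).1 := by
    rw [lc_apply, hsum fun b => w b * φ b, Finset.mul_sum, ← Finset.sum_add_distrib]
    refine Finset.sum_le_sum fun i _ => ?_
    have h7 := mul_le_mul_of_nonneg_right (hm2 i) (hφ.nonneg (e i).1)
    calc (m i : ℝ) * φ (e i).1 ≤ (K * w (e i).1 + 1) * φ (e i).1 := h7
      _ = _ := by ring
  have h8 : (K : ℝ) * (δ - Finsupp.linearCombination ℝ φ w) =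
      δ * K - K * Finsupp.linearCombination ℝ φ w := by ring
  linarith

/-- The costs of the covers of `e`. -/
def Cov (φ : B → ℝ) (e : B →₀ ℝ) : Set ℝ :=
  {r | ∃ w : B →₀ ℝ, (∀ b, 0 ≤ w b) ∧ (∀ x : Pt B, ev x e ≤ ev x w) ∧
    r = Finsupp.linearCombination ℝ φ w}

theorem lc_nonneg {φ : B → ℝ} (hφ : Sub φ) {w : B →₀ ℝ} (hw : ∀ b, 0 ≤ w b) :
    0 ≤ Finsupp.linearCombination ℝ φ w := by
  rw [lc_apply]
  exact Finset.sum_nonneg fun b _ => mul_nonneg (hw b) (hφ.nonneg b)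

theorem cov_bdd {φ : B → ℝ} (hφ : Sub φ) (e : B →₀ ℝ) : BddBelow (Cov φ e) := by
  refine ⟨0, ?_⟩
  rintro _ ⟨w, hw, -, rfl⟩
  exact lc_nonneg hφ hw

theorem cov_ne (φ : B → ℝ) (e : B →₀ ℝ) : (Cov φ e).Nonempty := by
  classical
  refine ⟨_, e.mapRange abs abs_zero, fun b => ?_, fun x => ?_, rfl⟩
  · rw [Finsupp.mapRange_apply]
    exact abs_nonneg _
  · have h1 : (e.mapRange abs abs_zero).support ⊆ e.support := Finsupp.support_mapRange
    rw [ev_apply, ev_apply]
    rw [Finset.sum_subset h1 fun b _ hb => by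
      rw [Finsupp.notMem_support_iff.1 hb, zero_mul]]
    refine Finset.sum_le_sum fun b _ => ?_
    rw [Finsupp.mapRange_apply]
    exact mul_le_mul_of_nonneg_right (le_abs_self _) (ind_nonneg x b)

/-- The sublinear functional. -/
noncomputable def NN (φ : B → ℝ) (e : B →₀ ℝ) : ℝ := sInf (Cov φ e)

theorem NN_le {φ : B → ℝ} (hφ : Sub φ) {e w : B →₀ ℝ} (hw : ∀ b, 0 ≤ w b)
    (h : ∀ x : Pt B, ev x e ≤ ev x w) : NN φ e ≤ Finsupp.linearCombination ℝ φ w :=
  csInf_le (cov_bdd hφ e) ⟨w, hw, h, rfl⟩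

theorem NN_nonneg {φ : B → ℝ} (hφ : Sub φ) (e : B →₀ ℝ) : 0 ≤ NN φ e := by
  refine le_csInf (cov_ne φ e) ?_
  rintro _ ⟨w, hw, -, rfl⟩
  exact lc_nonneg hφ hw

theorem NN_smul_le {φ : B → ℝ} (hφ : Sub φ) {c : ℝ} (hc : 0 < c) (e : B →₀ ℝ) :
    NN φ (c • e) ≤ c * NN φ e := by
  rw [← div_le_iff₀' hc]
  refine le_csInf (cov_ne φ e) ?_
  rintro _ ⟨w, hw, h, rfl⟩
  rw [div_le_iff₀' hc, ← smul_eq_mul, ← map_smul]
  refine NN_le hφ (fun b => ?_) fun x => ?_
  · rw [Finsupp.smul_apply, smul_eq_mul]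
    exact mul_nonneg hc.le (hw b)
  · rw [map_smul, map_smul, smul_eq_mul, smul_eq_mul]
    exact mul_le_mul_of_nonneg_left (h x) hc.le

theorem NN_smul {φ : B → ℝ} (hφ : Sub φ) {c : ℝ} (hc : 0 < c) (e : B →₀ ℝ) :
    NN φ (c • e) = c * NN φ e := by
  refine le_antisymm (NN_smul_le hφ hc e) ?_
  have h1 := NN_smul_le hφ (inv_pos.2 hc) (c • e)
  rw [smul_smul, inv_mul_cancel₀ hc.ne', one_smul] at h1
  calc c * NN φ e ≤ c * (c⁻¹ * NN φ (c • e)) := mul_le_mul_of_nonneg_left h1 hc.le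
    _ = NN φ (c • e) := by rw [← mul_assoc, mul_inv_cancel₀ hc.ne', one_mul]

theorem NN_add {φ : B → ℝ} (hφ : Sub φ) (e e' : B →₀ ℝ) : NN φ (e + e') ≤ NN φ e + NN φ e' := by
  refine le_of_forall_pos_lt_add fun ε hε => ?_
  obtain ⟨_, ⟨w, hw, h, rfl⟩, h1⟩ := exists_lt_of_csInf_lt (cov_ne φ e)
    (show sInf (Cov φ e) < NN φ e + ε / 2 by
      unfold NN
      linarith)
  obtain ⟨_, ⟨w', hw', h', rfl⟩, h1'⟩ := exists_lt_of_csInf_lt (cov_ne φ e')
    (show sInf (Cov φ e') < NN φ e' + ε / 2 by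
      unfold NN
      linarith)
  have h2 : NN φ (e + e') ≤ Finsupp.linearCombination ℝ φ (w + w') := by
    refine NN_le hφ (fun b => ?_) fun x => ?_
    · rw [Finsupp.add_apply]
      exact add_nonneg (hw b) (hw' b)
    · rw [map_add, map_add]
      exact add_le_add (h x) (h' x)
  rw [map_add] at h2
  linarith

theorem ev_single (x : Pt B) (b : B) (c : ℝ) : ev x (Finsupp.single b c) = c * ind x b := by
  unfold ev
  rw [Finsupp.linearCombination_single, smul_eq_mul]

theorem lc_single (φ : B → ℝ) (b : B) : Finsupp.linearCombination ℝ φ (Finsupp.single b 1) = φ b := by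
  rw [Finsupp.linearCombination_single, one_smul]

/-- **The theorem of Kalton and Roberts.** -/
theorem exists_additive {φ : B → ℝ} (hφ : Sub φ) (hU : UE φ) (h1 : 0 < φ ⊤) :
    ∃ ν : B → ℝ, (∀ a, 0 ≤ ν a) ∧ (∀ a, ν a ≤ φ a) ∧
      (∀ a b, Disjoint a b → ν (a ⊔ b) = ν a + ν b) ∧ 0 < ν ⊤ := by
  classical
  obtain ⟨δ, hδ, hw⟩ := weight_cost hφ hU h1
  let e₀ : B →₀ ℝ := Finsupp.single ⊤ 1
  have he₀ : e₀ ≠ 0 := Finsupp.single_ne_zero.2 one_ne_zero
  have H₀ : ∀ c : ℝ, c • e₀ = 0 → c • NN φ e₀ = 0 := by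
    intro c hc
    rw [smul_eq_zero] at hc
    rcases hc with hc | hc
    · rw [hc, zero_smul]
    · exact absurd hc he₀
  have hpos : 0 < NN φ e₀ := by
    refine hδ.trans_le (le_csInf (cov_ne φ e₀) ?_)
    rintro _ ⟨w, hw0, hcov, rfl⟩
    refine hw w hw0 fun x => ?_
    have h2 := hcov x
    rw [ev_single, ind_of_mem x.top, mul_one] at h2
    exact h2
  have hL : ∀ (c : ℝ) (hx : c • e₀ ∈ (LinearPMap.mkSpanSingleton (K := ℝ) e₀ (NN φ e₀) he₀).domain),
      (LinearPMap.mkSpanSingleton (K := ℝ) e₀ (NN φ e₀) he₀) ⟨c • e₀, hx⟩ = c • NN φ e₀ :=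
    fun c hx => LinearPMap.mkSpanSingleton'_apply (σ := RingHom.id ℝ) e₀ (NN φ e₀) H₀ c hx
  obtain ⟨ℓ, hℓ1, hℓ2⟩ := exists_extension_of_le_sublinear
    (LinearPMap.mkSpanSingleton (K := ℝ) e₀ (NN φ e₀) he₀) (NN φ)
    (fun c hc x => NN_smul hφ hc x) (NN_add hφ) (by
      rintro ⟨x, hx⟩
      obtain ⟨c, rfl⟩ := Submodule.mem_span_singleton.1 hx
      rw [hL]
      rcases lt_or_ge 0 c with hc | hc
      · change c • NN φ e₀ ≤ NN φ (c • e₀)
        rw [NN_smul hφ hc, smul_eq_mul]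
      · refine le_trans ?_ (NN_nonneg hφ _)
        exact mul_nonpos_of_nonpos_of_nonneg hc hpos.le)
  have hneg : ∀ e : B →₀ ℝ, (∀ x : Pt B, ev x e ≤ 0) → ℓ e ≤ 0 := by
    intro e he
    refine (hℓ2 e).trans ?_
    have h2 := NN_le hφ (e := e) (w := 0) (fun b => le_rfl) fun x => by
      rw [map_zero]
      exact he x
    rwa [map_zero] at h2
  refine ⟨fun a => ℓ (Finsupp.single a 1), fun a => ?_, fun a => ?_, fun a b hab => ?_, ?_⟩
  · have h2 := hneg (-Finsupp.single a 1) fun x => by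
      rw [map_neg, ev_single, one_mul, neg_nonpos]
      exact ind_nonneg x a
    rw [map_neg] at h2
    linarith
  · refine (hℓ2 _).trans ?_
    have h2 := NN_le hφ (e := Finsupp.single a 1) (w := Finsupp.single a 1) (fun b => ?_)
      fun x => le_rfl
    · rwa [lc_single] at h2
    · rw [Finsupp.single_apply]
      split_ifs
      · exact zero_le_one
      · exact le_rfl
  · have hev : ∀ x : Pt B, ind x (a ⊔ b) = ind x a + ind x b := by
      intro x
      have hd := disjoint_iff_pt.1 hab x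
      by_cases ha : x.mem a
      · have hb := hd ha
        rw [ind_of_mem ha, ind_of_notMem hb, ind_of_mem ((x.sup a b).2 (Or.inl ha)), add_zero]
      · by_cases hb : x.mem b
        · rw [ind_of_notMem ha, ind_of_mem hb, ind_of_mem ((x.sup a b).2 (Or.inr hb)), zero_add]
        · rw [ind_of_notMem ha, ind_of_notMem hb, ind_of_notMem (fun h => ?_), add_zero]
          rcases (x.sup a b).1 h with h | h
          · exact ha h
          · exact hb h
    have h2 := hneg (Finsupp.single (a ⊔ b) 1 - Finsupp.single a 1 - Finsupp.single b 1)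
      fun x => by
        rw [map_sub, map_sub, ev_single, ev_single, ev_single, hev]
        linarith
    have h3 := hneg (-(Finsupp.single (a ⊔ b) 1 - Finsupp.single a 1 - Finsupp.single b 1))
      fun x => by
        rw [map_neg, map_sub, map_sub, ev_single, ev_single, ev_single, hev]
        linarith
    rw [map_neg, map_sub, map_sub] at h3
    rw [map_sub, map_sub] at h2
    linarith
  · have h2 := hℓ1 ⟨e₀, (Submodule.mem_span_singleton_self e₀ : e₀ ∈ Submodule.span ℝ {e₀})⟩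
    have h3 := LinearPMap.mkSpanSingleton_apply (σ := RingHom.id ℝ) ℝ ℝ he₀ (NN φ e₀)
    rw [h3] at h2
    change 0 < ℓ e₀
    rw [h2]
    exact hpos

end Pool.Agent.N49.KR
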