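import Pool.Agent.N49.KR.Cell

/-!
# Random unions
-/

set_option autoImplicit false

namespace Pool.Agent.N49.KR

open Finset

universe u

variable {B : Type u} [BooleanAlgebra B]

theorem sum_coord {ι : Type} [Fintype ι] (f : ι → ℝ) (T : ℕ) (s : Fin T) :
    ∑ t : Fin T → ι, f (t s) = (Fintype.card ι : ℝ) ^ (T - 1) * ∑ i, f i := by
  classical
  have h1 : ∀ t : Fin T → ι, f (t s) = ∏ s', (if s' = s then f (t s') else 1) := by
    intro t
    rw [Fintype.prod_eq_single s, if_pos rfl]
    intro s' hs'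
    rw [if_neg hs']
  have h2 := Finset.prod_univ_sum (fun _ : Fin T => (Finset.univ : Finset ι))
    (fun s' i => if s' = s then f i else 1)
  rw [Fintype.piFinset_univ] at h2
  rw [Finset.sum_congr rfl fun t _ => h1 t, ← h2, Fintype.prod_eq_mul_prod_compl s]
  have h3 : ∀ s' ∈ ({s}ᶜ : Finset (Fin T)), ∑ i, (if s' = s then f i else 1) =
      (Fintype.card ι : ℝ) := by
    intro s' hs'
    rw [Finset.mem_compl, Finset.mem_singleton] at hs'
    simp [hs']
  rw [Finset.prod_congr rfl h3, Finset.prod_const, Finset.card_compl, Finset.card_singleton,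
    Fintype.card_fin]
  simp only [if_true]
  rw [mul_comm]

open scoped Classical in
/-- **Random unions.** A cover with small cost gives a family of sets of small size which cover
almost everything almost always. -/
theorem random_cover {φ : B → ℝ} (hφ : Sub φ) (hB : (⊤ : B) ≠ ⊥) {η κ : ℝ} (hη : 0 < η)
    (hκ : 0 < κ) : ∃ δ : ℝ, 0 < δ ∧ ∀ (ι : Type) [Fintype ι] (a : ι → B) (K : ℕ), 0 < K →
      (∀ x : Pt B, K ≤ (Finset.univ.filter fun i => x.mem (a i)).card) →
      ∑ i, φ (a i) ≤ δ * K → ∃ (p : ℕ) (b : Fin p → B), 0 < p ∧ (∀ t, φ (b t) ≤ κ) ∧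
        ∀ x : Pt B, ((Finset.univ.filter fun t => ¬ x.mem (b t)).card : ℝ) ≤ η * p := by
  obtain ⟨L, hL⟩ := exists_pow_lt_of_lt_one (show (0 : ℝ) < η / 2 by linarith)
    (show (1 / 2 : ℝ) < 1 by norm_num)
  refine ⟨κ / (2 * (L + 1)), by positivity, fun ι _ a K hK hcov hcost => ?_⟩
  obtain ⟨x₀, -⟩ := exists_pt hB
  set M := Fintype.card ι with hM
  have hKM : K ≤ M := (hcov x₀).trans (Finset.card_le_univ _)
  have hM0 : 0 < M := hK.trans_le hKM
  have hK' : (0 : ℝ) < K := by exact_mod_cast hK
  have hM' : (0 : ℝ) < M := by exact_mod_cast hM0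
  have hKM' : (K : ℝ) ≤ M := by exact_mod_cast hKM
  set T := ⌈(L : ℝ) * M / K⌉₊ with hT
  have hT1 : (L : ℝ) * M / K ≤ T := Nat.le_ceil _
  have hT2 : (T : ℝ) < L * M / K + 1 := Nat.ceil_lt_add_one (by positivity)
  let b : (Fin T → ι) → B := fun t => Finset.univ.sup fun s => a (t s)
  have hN : (Fintype.card (Fin T → ι) : ℝ) = (M : ℝ) ^ T := by
    rw [Fintype.card_fun, Fintype.card_fin]
    push_cast
    rfl
  -- the average
  have hav : ∑ t, φ (b t) ≤ (M : ℝ) ^ T * (κ / 2) := by
    have h1 : ∑ t, φ (b t) ≤ ∑ t : Fin T → ι, ∑ s, φ (a (t s)) :=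
      Finset.sum_le_sum fun t _ => hφ.finset_sup _ _
    rw [Finset.sum_comm] at h1
    have h2 : ∀ s : Fin T, ∑ t : Fin T → ι, φ (a (t s)) = (M : ℝ) ^ (T - 1) * ∑ i, φ (a i) :=
      fun s => sum_coord (fun i => φ (a i)) T s
    rw [Finset.sum_congr rfl fun s _ => h2 s, Finset.sum_const, Finset.card_univ, Fintype.card_fin,
      nsmul_eq_mul] at h1
    rcases Nat.eq_zero_or_pos T with hT0 | hT0
    · have hT0' : (T : ℝ) = 0 := by exact_mod_cast hT0
      refine h1.trans ?_
      rw [hT0', zero_mul]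
      positivity
    · have h3 : (M : ℝ) ^ T = M ^ (T - 1) * M := by
        rw [← pow_succ, Nat.sub_add_cancel hT0]
      refine h1.trans ?_
      rw [h3]
      have h4 : (T : ℝ) * ∑ i, φ (a i) ≤ M * (κ / 2) := by
        calc (T : ℝ) * ∑ i, φ (a i) ≤ T * (κ / (2 * (L + 1)) * K) :=
              mul_le_mul_of_nonneg_left hcost (Nat.cast_nonneg _)
          _ ≤ (L * M / K + 1) * (κ / (2 * (L + 1)) * K) :=
              mul_le_mul_of_nonneg_right hT2.le (by positivity)
          _ = κ / (2 * (L + 1)) * (L * M + K) := by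
              field_simp
          _ ≤ κ / (2 * (L + 1)) * (L * M + M) :=
              mul_le_mul_of_nonneg_left (by linarith) (by positivity)
          _ = M * (κ / 2) := by
              field_simp
      have h5 : (0 : ℝ) ≤ M ^ (T - 1) := by positivity
      calc (T : ℝ) * (M ^ (T - 1) * ∑ i, φ (a i)) = M ^ (T - 1) * (T * ∑ i, φ (a i)) := by ring
        _ ≤ M ^ (T - 1) * (M * (κ / 2)) := mul_le_mul_of_nonneg_left h4 h5
        _ = M ^ (T - 1) * M * (κ / 2) := by ring
  -- the good part
  set G : Finset (Fin T → ι) := Finset.univ.filter fun t => φ (b t) ≤ κ with hG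
  have hNpos : (0 : ℝ) < (M : ℝ) ^ T := by positivity
  have hGc : (M : ℝ) ^ T / 2 ≤ G.card := by
    have h1 : (Finset.univ.filter fun t => ¬ φ (b t) ≤ κ).card * κ ≤ (M : ℝ) ^ T * (κ / 2) := by
      refine le_trans ?_ hav
      have h2 : ∑ t ∈ Finset.univ.filter (fun t => ¬ φ (b t) ≤ κ), κ ≤
          ∑ t ∈ Finset.univ.filter (fun t => ¬ φ (b t) ≤ κ), φ (b t) :=
        Finset.sum_le_sum fun t ht => (not_le.1 (Finset.mem_filter.1 ht).2).le
      rw [Finset.sum_const, nsmul_eq_mul] at h2
      exact h2.trans (Finset.sum_le_sum_of_subset_of_nonneg (Finset.filter_subset _ _)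
        fun t _ _ => hφ.nonneg _)
    have h3 : (G.card : ℝ) + (Finset.univ.filter fun t => ¬ φ (b t) ≤ κ).card = (M : ℝ) ^ T := by
      rw [← hN, ← Finset.card_univ]
      exact_mod_cast Finset.card_filter_add_card_filter_not _
    have h4 : ((Finset.univ.filter fun t => ¬ φ (b t) ≤ κ).card : ℝ) ≤ (M : ℝ) ^ T / 2 := by
      have h5 : ((Finset.univ.filter fun t => ¬ φ (b t) ≤ κ).card : ℝ) * κ ≤
          (M : ℝ) ^ T / 2 * κ := by linarith
      exact le_of_mul_le_mul_right h5 hκ
    linarith
  have hGpos : 0 < G.card := by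
    have : (0 : ℝ) < G.card := by linarith
    exact_mod_cast this
  -- the exceptions
  have hex : ∀ x : Pt B, ((Finset.univ.filter fun t => ¬ x.mem (b t)).card : ℝ) ≤
      (M : ℝ) ^ T * (η / 2) := by
    intro x
    have h1 : (Finset.univ.filter fun t => ¬ x.mem (b t)) =
        Fintype.piFinset fun _ : Fin T => Finset.univ.filter fun i => ¬ x.mem (a i) := by
      ext t
      rw [Fintype.mem_piFinset, Finset.mem_filter]
      simp only [b, x.mem_sup, Finset.mem_univ, true_and, Finset.mem_filter]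
      push Not
      exact Iff.rfl
    rw [h1, Fintype.card_piFinset, Finset.prod_const, Finset.card_univ, Fintype.card_fin]
    have h2 : ((Finset.univ.filter fun i => ¬ x.mem (a i)).card : ℝ) ≤ M * (1 - K / M) := by
      have h3 : (Finset.univ.filter fun i => x.mem (a i)).card +
          (Finset.univ.filter fun i => ¬ x.mem (a i)).card = M := by
        rw [hM, ← Finset.card_univ]
        exact Finset.card_filter_add_card_filter_not _
      have h4 := hcov x
      have h5 : (M : ℝ) * (1 - K / M) = M - K := by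
        field_simp
      rw [h5]
      have h6 : (Finset.univ.filter fun i => ¬ x.mem (a i)).card + K ≤ M := by omega
      have h7 : (((Finset.univ.filter fun i => ¬ x.mem (a i)).card : ℝ)) + K ≤ M := by
        exact_mod_cast h6
      linarith
    have h3 : (0 : ℝ) ≤ 1 - K / M := by
      rw [sub_nonneg, div_le_one hM']
      exact hKM'
    have h4 : (1 - (K : ℝ) / M) ^ T ≤ η / 2 := by
      calc (1 - (K : ℝ) / M) ^ T ≤ (Real.exp (-(K / M))) ^ T :=
            pow_le_pow_left₀ h3 (Real.one_sub_le_exp_neg _) T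
        _ = Real.exp (-(T * (K / M))) := by
            rw [← Real.exp_nat_mul]
            congr 1
            ring
        _ ≤ Real.exp (-L) := by
            rw [Real.exp_le_exp, neg_le_neg_iff]
            calc (L : ℝ) = L * M / K * (K / M) := by field_simp
              _ ≤ T * (K / M) := mul_le_mul_of_nonneg_right hT1 (by positivity)
        _ = (Real.exp (-1)) ^ L := by
            rw [← Real.exp_nat_mul]
            congr 1
            ring
        _ ≤ (1 / 2) ^ L := by
            refine pow_le_pow_left₀ (Real.exp_pos _).le ?_ L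
            rw [Real.exp_neg, one_div]
            refine inv_anti₀ (by norm_num) ?_
            linarith [Real.add_one_le_exp (1 : ℝ)]
        _ ≤ η / 2 := hL.le
    push_cast
    calc ((Finset.univ.filter fun i => ¬ x.mem (a i)).card : ℝ) ^ T ≤ (M * (1 - K / M)) ^ T :=
          pow_le_pow_left₀ (Nat.cast_nonneg _) h2 T
      _ = (M : ℝ) ^ T * (1 - K / M) ^ T := mul_pow _ _ _
      _ ≤ (M : ℝ) ^ T * (η / 2) := mul_le_mul_of_nonneg_left h4 hNpos.le
  -- the family
  let e : Fin G.card ≃ {t // t ∈ G} := G.equivFin.symm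
  refine ⟨G.card, fun t => b (e t).1, hGpos, fun t => (Finset.mem_filter.1 (e t).2).2,
    fun x => ?_⟩
  have h1 : (Finset.univ.filter fun t : Fin G.card => ¬ x.mem (b (e t).1)).card ≤
      (Finset.univ.filter fun t => ¬ x.mem (b t)).card := by
    refine Finset.card_le_card_of_injOn (fun t => (e t).1) (fun t ht => ?_) ?_
    · rw [Finset.mem_coe, Finset.mem_filter] at ht ⊢
      exact ⟨Finset.mem_univ _, ht.2⟩
    · intro t _ t' _ h
      exact e.injective (Subtype.ext h)
  have h2 : ((Finset.univ.filter fun t : Fin G.card => ¬ x.mem (b (e t).1)).card : ℝ) ≤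
      (Finset.univ.filter fun t => ¬ x.mem (b t)).card := by exact_mod_cast h1
  refine h2.trans ((hex x).trans ?_)
  calc (M : ℝ) ^ T * (η / 2) = η * ((M : ℝ) ^ T / 2) := by ring
    _ ≤ η * G.card := mul_le_mul_of_nonneg_left hGc hη.le

end Pool.Agent.N49.KR
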